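import Pool.Agent.Lib_helper23.DET.D4

/-!
# The number `N` for the search (MP_675993_lc, truth-table reductions)
-/

set_option autoImplicit false
set_option linter.unusedSectionVars false

namespace Pool.Agent.DET

open Pool.Agent.CK Pool.Agent.CKP Pool.Agent.PCL

variable {O : Lang} {W : ℕ → ℕ → Bool} {ℓ : ℕ → ℕ}

/-- polynomials are smaller than `2 ^ N` -/
theorem exists_two_pow (k : ℕ) : ∃ N1 : ℕ, ∀ N : ℕ, N1 ≤ N → (N + 2) ^ k < 2 ^ N := by
  have h := tendsto_pow_const_div_const_pow_of_one_lt k (r := (2 : ℝ)) (by norm_num)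
  have h2 := h.eventually (gt_mem_nhds (show (0 : ℝ) < 1 / 4 by norm_num))
  rw [Filter.eventually_atTop] at h2
  obtain ⟨N1, hN1⟩ := h2
  refine ⟨N1, fun N hN => ?_⟩
  have h3 := hN1 (N + 2) (by omega)
  rw [div_lt_iff₀ (by positivity), pow_add] at h3
  have h4 : ((N + 2 : ℕ) : ℝ) ^ k < 2 ^ N := by linarith
  exact_mod_cast h4

/-- **The number `N`.** -/
theorem exists_NN (hver : Ver O W ℓ) (kk : ℕ) (P : Polynomial ℕ) (e : ℕ) :
    ∃ NN : ℕ → ℕ, UPoly O NN ∧ ∀ (n : List Unit) (U : ℕ), U ≤ 2 ^ ℓ n.length →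
      (q1 n U).length ≤ NN n.length ∧ ((q1 n U).length + 2) ^ kk < NN n.length ∧
      P.eval ((NN n.length + 2) ^ e) < 2 ^ NN n.length := by
  obtain ⟨κ, _, hκ⟩ := exists_kap hver kk
  obtain ⟨k1, hk1⟩ := exists_pow (P.comp ((Polynomial.X + 2) ^ e))
  obtain ⟨N1, hN1⟩ := exists_two_pow k1
  refine ⟨fun n => (n + 2) ^ κ + N1, (UPoly.tb κ).add (UPoly.const N1), fun n U hU => ?_⟩
  obtain ⟨h1, h2⟩ := hκ n.length n U le_rfl hU
  refine ⟨h1.trans (Nat.le_add_right _ _), h2.trans_le (Nat.le_add_right _ _), ?_⟩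
  have h3 := hk1 ((n.length + 2) ^ κ + N1)
  rw [Polynomial.eval_comp] at h3
  simp only [Polynomial.eval_add, Polynomial.eval_pow, Polynomial.eval_ofNat,
    Polynomial.eval_X] at h3
  exact h3.trans_lt (hN1 _ (Nat.le_add_left _ _))

end Pool.Agent.DET
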